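import Mathlib
import Pool.Agent.H707R3.TowerL
import Pool.Agent.Helper386.D5V.Helper386_FF_Div

/-! Project ZT (helper387): `L(chi, s)` is a polynomial for the layers of a `ℤ_p`-tower of curves
over a finite field. Definitions and statements of the tasks. -/

set_option autoImplicit false

open Polynomial

namespace Pool.Agent.H387R3.ZT

noncomputable section

section defs

variable {k F : Type} [Field k] [Field F] [Algebra k F]

/-- `v` is unramified in the Galois extension `K/F`. -/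
def Unr (v : FF.Place k F) (K : Type) [Field K] [Algebra F K] : Prop :=
  ∀ W : ValuationSubring K, W.comap (algebraMap F K) = v.O →
    ∀ σ : K ≃ₐ[F] K, (∀ a ∈ W, W.valuation (σ a - a) < 1) → σ = 1

/-- `σ` is a Frobenius element at `v`. -/
def IsFr (v : FF.Place k F) {K : Type} [Field K] [Algebra F K] (σ : K ≃ₐ[F] K) : Prop :=
  ∃ W : ValuationSubring K, W.comap (algebraMap F K) = v.O ∧
    ∀ a ∈ W, W.valuation (σ a - a ^ Nat.card v.RF) < 1

/-- Coefficientwise `N`-th power. -/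
def powC {κ : Type} [Field κ] (N : ℕ) (P : κ[X]) : κ[X] := P.sum fun j a => C (a ^ N) * X ^ j

/-- The product of the coefficientwise `N ^ i`-th powers, `i < m`. -/
def nrm {κ : Type} [Field κ] (N m : ℕ) (P : κ[X]) : κ[X] :=
  ∏ i ∈ Finset.range m, powC (N ^ i) P

/-- Reduction of a polynomial at a place. -/
def redP (v : FF.Place k F) (w : F[X]) : v.RF[X] := w.sum fun j a => C (v.red a) * X ^ j

/-- Norm to the prime field of the reduction of `w` at `v`. -/
def nrmP (p : ℕ) (v : FF.Place k F) (w : F[X]) : v.RF[X] :=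
  nrm p (Nat.log p (Nat.card v.RF)) (redP v w)

/-- Norm to the constant field of the reduction of `w` at `v`. -/
def nrmK (v : FF.Place k F) (w : F[X]) : v.RF[X] := nrm (Nat.card k) v.deg (redP v w)

/-- The degree of a divisor. -/
def ddeg (D : FF.Place k F →₀ ℤ) : ℤ := D.sum fun v n => n * v.deg

end defs

/-- The norm of a polynomial over a finite extension `L/K`, as a determinant. -/
def NP (K : Type) {L : Type} [Field K] [Field L] [Algebra K L] [FiniteDimensional K L] (w : L[X]) :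
    K[X] :=
  (matPolyEquiv.symm
    (w.map (Algebra.leftMulMatrix (Module.finBasis K L)).toRingHom)).det

/-! ### (A), (B) -/

/-- (A) an integral element (outside `T`) of trace one -/
def TaskA : Prop :=
  ∀ (k F K : Type) [Field k] [Finite k] [Field F] [Algebra k F] [FF.IsFF k F] [Field K] [Algebra F K]
    [FiniteDimensional F K] [IsGalois F K] (T : Finset (FF.Place k F)), T.Nonempty →
    (∀ v ∉ T, Unr v K) →
    ∃ b : K, Algebra.trace F K b = 1 ∧
      ∀ v ∉ T, ∀ W : ValuationSubring K, W.comap (algebraMap F K) = v.O → b ∈ W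

/-- (B) the polynomial `w`; proved from (A) -/
def TaskB : Prop :=
  TaskA →
  ∀ (p n : ℕ) [Fact p.Prime] (k F K : Type) [Field k] [Finite k] [CharP k p] [Field F] [Algebra k F]
    [FF.IsFF k F] [Field K] [Algebra F K] [FiniteDimensional F K] [IsGalois F K]
    (Φ : (K ≃ₐ[F] K) →* Multiplicative (ZMod (p ^ n))) (T : Finset (FF.Place k F)), T.Nonempty →
    (∀ v ∉ T, Unr v K) →
    ∃ w : F[X], w.coeff 0 = 1 ∧ (∀ v ∉ T, ∀ j, v.Reg (w.coeff j)) ∧
      ∀ v ∉ T, ∀ σ : K ≃ₐ[F] K, IsFr v σ →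
        (X : v.RF[X]) ^ (p ^ n) ∣ (1 + X) ^ (Φ σ).toAdd.val - nrmP p v w

/-! ### (C) reciprocity, elementary form -/

/-- (C0) inseparable functions are `p`-th powers -/
def TaskC0 : Prop :=
  ∀ (p : ℕ) [Fact p.Prime] (k F : Type) [Field k] [Finite k] [CharP k p] [Field F] [Algebra k F]
    [FF.IsFF k F] (g : F), Transcendental k g →
    ¬ Algebra.IsSeparable (IntermediateField.adjoin k {g}) F → ∃ g₁ : F, g₁ ^ p = g

/-- (C1) the norm of `w` down to `k(u)` is constant modulo `X ^ M` -/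
def TaskC1 : Prop :=
  ∀ (k F : Type) [Field k] [Finite k] [Field F] [Algebra k F] [FF.IsFF k F] (u : F) (M : ℕ),
    Transcendental k u →
    ∀ [FiniteDimensional (IntermediateField.adjoin k {u}) F],
    Algebra.IsSeparable (IntermediateField.adjoin k {u}) F →
    ∀ w : F[X], w.coeff 0 = 1 →
      (∀ v : FF.Place k F, 0 ≤ v.ord u → ∀ j, v.Reg (w.coeff j)) →
      (∀ v : FF.Place k F, v.ord u < 0 → ∀ j < M, w.coeff j ≠ 0 →
        (j : ℤ) * v.ord u ≤ M * v.ord (w.coeff j)) →
      ∃ h : k[X], ∀ j < M, (NP (IntermediateField.adjoin k {u}) w).coeff j =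
        algebraMap k (IntermediateField.adjoin k {u}) (h.coeff j)

/-- (C2) evaluation of the norm at `u = t` -/
def TaskC2 : Prop :=
  ∀ (k F : Type) [Field k] [Finite k] [Field F] [Algebra k F] [FF.IsFF k F] (u : F) (M : ℕ),
    Transcendental k u →
    ∀ [FiniteDimensional (IntermediateField.adjoin k {u}) F],
    Algebra.IsSeparable (IntermediateField.adjoin k {u}) F →
    ∀ w : F[X], (∀ v : FF.Place k F, 0 ≤ v.ord u → ∀ j, v.Reg (w.coeff j)) →
      ∀ h : k[X], (∀ j < M, (NP (IntermediateField.adjoin k {u}) w).coeff j =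
        algebraMap k (IntermediateField.adjoin k {u}) (h.coeff j)) →
      ∀ (t : k) (c : FF.Place k F → k[X]),
        (∀ v : FF.Place k F, 0 < v.ord (u - algebraMap k F t) →
          (X : v.RF[X]) ^ M ∣ (c v).map (algebraMap k v.RF) - nrmK v w) →
        (X : k[X]) ^ M ∣ (∏ᶠ v : FF.Place k F, c v ^ (v.ord (u - algebraMap k F t)).toNat) - h

/-- (C3) reciprocity, assembled from C0, C1, C2 -/
def TaskC : Prop :=
  ∀ (p n : ℕ) [Fact p.Prime] (k F : Type) [Field k] [Finite k] [CharP k p] [Field F] [Algebra k F]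
    [FF.IsFF k F] (T : Finset (FF.Place k F)) (w : F[X]), T.Nonempty → w.coeff 0 = 1 →
    (∀ v ∉ T, ∀ j, v.Reg (w.coeff j)) → ∀ a : FF.Place k F → ℕ,
    (∀ v ∉ T, (X : v.RF[X]) ^ (p ^ n) ∣ (1 + X) ^ a v - nrmP p v w) →
    ∃ M0 : ℕ, 1 ≤ M0 ∧ ∀ g : F, g ≠ 0 → (∀ x ∈ T, g = 1 ∨ (M0 : ℤ) ≤ x.ord (g - 1)) →
      ((p ^ n : ℕ) : ℤ) ∣ ∑ᶠ v : FF.Place k F, v.ord g * (a v : ℤ)

def TaskC3 : Prop := TaskC0 → TaskC1 → TaskC2 → TaskC

/-! ### (D) reciprocity with modulus supported on the ramified places -/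

/-- weak approximation -/
def TaskWA : Prop :=
  ∀ (k F : Type) [Field k] [Field F] [Algebra k F] (T : Finset (FF.Place k F)) (a : FF.Place k F → F)
    (N : ℤ), ∃ f : F, ∀ x ∈ T, f = a x ∨ N ≤ x.ord (f - a x)

/-- finitely many zeros and poles; infinitely many places -/
def TaskSupp : Prop :=
  ∀ (k F : Type) [Field k] [Finite k] [Field F] [Algebra k F] [FF.IsFF k F],
    (∀ f : F, {v : FF.Place k F | v.ord f ≠ 0}.Finite) ∧ Infinite (FF.Place k F)

/-- reciprocity for `K/F` with modulus supported on a set outside of which `K/F` is unramified -/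
def Rec : Prop :=
  ∀ (p n : ℕ) [Fact p.Prime] (k F K : Type) [Field k] [Finite k] [CharP k p] [Field F] [Algebra k F]
    [FF.IsFF k F] [Field K] [Algebra F K] [FiniteDimensional F K] [IsGalois F K]
    (Φ : (K ≃ₐ[F] K) →* Multiplicative (ZMod (p ^ n))) (S : Finset (FF.Place k F)),
    (∀ v ∉ S, Unr v K) → ∀ fr : FF.Place k F → (K ≃ₐ[F] K), (∀ v ∉ S, IsFr v (fr v)) →
    ∃ M0 : ℕ, 1 ≤ M0 ∧ ∀ g : F, g ≠ 0 → (∀ x ∈ S, g = 1 ∨ (M0 : ℤ) ≤ x.ord (g - 1)) →
      ∑ᶠ v : FF.Place k F, v.ord g • (Φ (fr v)).toAdd = 0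

/-! ### (E) counting functions -/

/-- (E) counting functions congruent to one; from Riemann's theorem -/
def TaskE : Prop :=
  ∀ (k F : Type) [Field k] [Finite k] [Field F] [Algebra k F] [FF.IsFF k F]
    (S : Finset (FF.Place k F)) (M0 : ℕ), 1 ≤ M0 →
    ∃ (k0 : ℤ) (c : ℤ → ℕ), (∀ m, k0 ≤ m → 0 < c m) ∧
      ∀ D : FF.Place k F →₀ ℤ, (∀ x ∈ S, D x = 0) → k0 ≤ ddeg D →
        Nat.card {f : F // f ≠ 0 ∧ (∀ x ∈ S, f = 1 ∨ (M0 : ℤ) ≤ x.ord (f - 1)) ∧
          ∀ v : FF.Place k F, 0 ≤ v.ord f + D v} = c (ddeg D)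

/-- the degree of a principal divisor -/
def TaskDeg0 : Prop :=
  ∀ (k F : Type) [Field k] [Finite k] [Field F] [Algebra k F] [FF.IsFF k F] (f : F), f ≠ 0 →
    ∑ᶠ v : FF.Place k F, v.ord f * (v.deg : ℤ) = 0

/-- effective divisors: their number in degree `m` is unbounded -/
def TaskGrow : Prop :=
  ∀ (k F : Type) [Field k] [Finite k] [Field F] [Algebra k F] [FF.IsFF k F] (N : ℕ),
    ∃ m : ℕ, N < Nat.card {D : FF.Place k F →₀ ℕ // (D.sum fun v n => n * v.deg) = m}

/-! ### bridge between the two notions of place -/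

/-- bridge -/
def TaskBridge : Prop :=
  ∀ (k F : Type) [Field k] [Finite k] [Field F] [Algebra k F], H707R3.IsCurveFunctionField k F →
    ∃ e : H707R3.Place k F ≃ FF.Place k F, ∀ v, (e v).O = v.ring ∧ (e v).deg = v.deg

/-! ### tower level -/

section tower

variable {p : ℕ} [Fact p.Prime]

/-- The zeta series of a function field, with coefficients in `ℂ_p`. -/
def zetaP (p : ℕ) [Fact p.Prime] (k K : Type) [Field k] [Field K] [Algebra k K] :
    PowerSeries ℂ_[p] :=
  open scoped PowerSeries.WithPiTopology in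
  ∏' v : H707R3.Place k K, (1 - PowerSeries.X ^ v.deg)⁻¹

/-- The naming hypothesis: `K n` is the layer of degree `p ^ n`, and `A n` is the multiset of
reciprocal roots of the numerator `P(X_n, s)` of its zeta function. -/
def Named (k F E : Type) [Field k] [Field F] [Algebra k F] [Field E] [Algebra F E]
    [Algebra k E] [IsScalarTower k F E]
    (K : ℕ → IntermediateField F E) (A : ℕ → Multiset ℂ_[p]) : Prop :=
  ∀ n, Module.finrank F (K n) = p ^ n ∧
    zetaP p k (K n) * (1 - PowerSeries.X) * (1 - PowerSeries.C (Nat.card k : ℂ_[p]) * PowerSeries.X) =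
      H707R3.recipProd (A n)

/-- a divisor of degree `0` supported on unramified places on which `χ` is not trivial -/
def HasD0 (k : Type) {F E : Type} [Field k] [Field F] [Algebra k F] [Field E] [Algebra F E]
    (χ : (E ≃ₐ[F] E) →* ℂ_[p]ˣ) : Prop :=
  ∃ D : {v : H707R3.Place k F // v.IsUnramified E} →₀ ℤ, (D.sum fun v n => n * (v.1.deg : ℤ)) = 0 ∧
    (D.prod fun v n => χ (v.1.frob E) ^ n) ≠ 1

/-- Frobenius elements exist -/
def TaskFrob : Prop :=
  ∀ (p : ℕ) [Fact p.Prime] (k F E : Type) [Field k] [Finite k] [CharP k p] [Field F] [Algebra k F]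
    [Field E] [Algebra F E] [Algebra k E] [IsScalarTower k F E], H707R3.IsZpTower k F E p →
    ∀ v : H707R3.Place k F, v.IsFrob (v.frob E)

/-- descent of unramifiedness to the layers -/
def TaskUnr : Prop :=
  ∀ (p : ℕ) [Fact p.Prime] (k F E : Type) [Field k] [Finite k] [CharP k p] [Field F] [Algebra k F]
    [Field E] [Algebra F E] [Algebra k E] [IsScalarTower k F E], H707R3.IsZpTower k F E p →
    ∀ (K : IntermediateField F E) [FiniteDimensional F K] [IsGalois F K] (v : H707R3.Place k F)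
      (v' : FF.Place k F), v'.O = v.ring → v.IsUnramified E → Unr v' K

/-- Weil: `L(chi, s)` is a polynomial (from Rec, E, Deg0, Bridge, Frob, Unr) -/
def Weil : Prop :=
  ∀ (p : ℕ) [Fact p.Prime] (k F E : Type) [Field k] [Finite k] [CharP k p] [Field F] [Algebra k F]
    [Field E] [Algebra F E] [Algebra k E] [IsScalarTower k F E], H707R3.IsZpTower k F E p →
    ∀ (n : ℕ) (χ : (E ≃ₐ[F] E) →* ℂ_[p]ˣ), orderOf χ = p ^ n → HasD0 k χ →
      ∃ B : Multiset ℂ_[p], H707R3.Lfun k χ = H707R3.recipProd B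

/-- (F) -/
def TaskF : Prop :=
  ∀ (p : ℕ) [Fact p.Prime] (k F E : Type) [Field k] [Finite k] [CharP k p] [Field F] [Algebra k F]
    [Field E] [Algebra F E] [Algebra k E] [IsScalarTower k F E], H707R3.IsZpTower k F E p →
    ∀ (K : ℕ → IntermediateField F E) (A : ℕ → Multiset ℂ_[p]), Named k F E K A →
    ∀ (n : ℕ) (χ : (E ≃ₐ[F] E) →* ℂ_[p]ˣ), 1 ≤ n → orderOf χ = p ^ n → HasD0 k χ

/-- (G) factorisation of the zeta functions of the layers -/
def TaskG : Prop :=
  ∀ (p : ℕ) [Fact p.Prime] (k F E : Type) [Field k] [Finite k] [CharP k p] [Field F] [Algebra k F]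
    [Field E] [Algebra F E] [Algebra k E] [IsScalarTower k F E], H707R3.IsZpTower k F E p →
    ∃ N : ℕ, ∀ K : ℕ → IntermediateField F E, (∀ n, Module.finrank F (K n) = p ^ n) →
      ∀ n, N ≤ n → ∃ s : Finset ((E ≃ₐ[F] E) →* ℂ_[p]ˣ),
        (∀ χ, χ ∈ s ↔ orderOf χ = p ^ (n + 1)) ∧
        zetaP p k (K (n + 1)) = zetaP p k (K n) * ∏ χ ∈ s, H707R3.Lfun k χ

/-- (D) assembled -/
def TaskD : Prop := TaskB → TaskA → TaskC → TaskWA → TaskSupp → Rec

/-- assembly of Weil's theorem; use also `H525R3.FFp` (Riemann, bridge) and `H962R3.Cnt` -/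
def TaskWeil : Prop := Rec → TaskE → TaskDeg0 → TaskFrob → TaskUnr → Weil

/-- the final theorem -/
def Final : Prop :=
  ∀ (p : ℕ) [Fact p.Prime] (k F E : Type) [Field k] [Finite k] [CharP k p] [Field F] [Algebra k F]
    [Field E] [Algebra F E] [Algebra k E] [IsScalarTower k F E], H707R3.IsZpTower k F E p →
    ∃ c : ℝ, 0 < c ∧ ∃ N : ℕ, ∀ (K : ℕ → IntermediateField F E) (A : ℕ → Multiset ℂ_[p]),
      Named k F E K A → ∀ n, N ≤ n → c * (p : ℝ) ^ n ≤ H707R3.ramIdx (H707R3.genField (A n))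

/-- final assembly -/
def TaskEnd : Prop := Weil → TaskF → TaskG → Final

end tower

end

end Pool.Agent.H387R3.ZT
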