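import Pool.Agent.H387R3.ZT.Stmts

/-! Project ZT (helper387), second batch: rationality of the zeta function and F. K. Schmidt's theorem,
so that the multisets of reciprocal roots in `Named` exist. -/

set_option autoImplicit false

namespace Pool.Agent.H387R3.ZT

noncomputable section

/-- the number of effective divisors of degree `m` -/
def bnum (k F : Type) [Field k] [Field F] [Algebra k F] (m : ℕ) : ℕ :=
  Nat.card {D : FF.Place k F →₀ ℕ // (D.sum fun v n => n * v.deg) = m}

/-- upper bound (finiteness of the class number) -/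
def TaskUp : Prop :=
  ∀ (k F : Type) [Field k] [Finite k] [Field F] [Algebra k F] [FF.IsFF k F],
    ∃ C : ℕ, ∀ m, bnum k F m ≤ C * Nat.card k ^ m

/-- lower bound (Riemann) -/
def TaskLow : Prop :=
  ∀ (k F : Type) [Field k] [Finite k] [Field F] [Algebra k F] [FF.IsFF k F],
    ∃ d0 C m0 : ℕ, 1 ≤ d0 ∧ ∀ j, m0 ≤ j → Nat.card k ^ (d0 * j) ≤ C * bnum k F (d0 * j)

/-- F. K. Schmidt -/
def Schmidt : Prop :=
  ∀ (k F : Type) [Field k] [Finite k] [Field F] [Algebra k F] [FF.IsFF k F],
    (∀ a : F, IsAlgebraic k a → a ∈ (algebraMap k F).range) →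
    ∀ d : ℕ, (∀ v : FF.Place k F, d ∣ v.deg) → d = 1

/-- constant extension of prime degree `l` dividing all degrees: two places of the same degree over
each place, as a map of divisors -/
def TaskConst : Prop :=
  ∀ (k F : Type) [Field k] [Finite k] [Field F] [Algebra k F] [FF.IsFF k F],
    (∀ a : F, IsAlgebraic k a → a ∈ (algebraMap k F).range) →
    ∀ l : ℕ, l.Prime → (∀ v : FF.Place k F, l ∣ v.deg) →
    ∃ (F' : Type) (_ : Field F') (_ : Algebra k F') (_ : FF.IsFF k F')
      (s t : FF.Place k F → FF.Place k F'), Function.Injective s ∧ Function.Injective t ∧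
      (∀ v w, s v ≠ t w) ∧ (∀ v, (s v).deg = v.deg) ∧ (∀ v, (t v).deg = v.deg)

/-- Schmidt from the bounds: effective divisors `D₁, D₂` of `F` give `s_* D₁ + t_* D₂` on `F'`, so
`∑ bnum F m₁ * bnum F m₂ ≤ bnum F' m ≤ C q ^ m`, contradiction with TaskLow -/
def TaskSch : Prop := TaskUp → TaskLow → TaskConst → Schmidt

/-- exact number of effective divisors of large degree -/
def TaskExact : Prop :=
  ∀ (k F : Type) [Field k] [Finite k] [Field F] [Algebra k F] [FF.IsFF k F],
    (∀ a : F, IsAlgebraic k a → a ∈ (algebraMap k F).range) →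
    (∀ d : ℕ, (∀ v : FF.Place k F, d ∣ v.deg) → d = 1) →
    ∃ (h m0 : ℕ) (γ : ℤ), ∀ m : ℕ, m0 ≤ m → 0 ≤ m - γ ∧
      bnum k F m * (Nat.card k - 1) = h * (Nat.card k ^ (m - γ).toNat - 1)

/-- rationality -/
def Rat : Prop :=
  ∀ (p : ℕ) [Fact p.Prime] (k F : Type) [Field k] [Finite k] [Field F] [Algebra k F],
    H707R3.IsCurveFunctionField k F →
    ∃ A : Multiset ℂ_[p], zetaP p k F * (1 - PowerSeries.X) *
      (1 - PowerSeries.C (Nat.card k : ℂ_[p]) * PowerSeries.X) = H707R3.recipProd A

/-- use `H525R3.FFp.bridge`, `H962R3.Cnt.coeff_euler` (a = 1) and `H962R3.Cnt.exists_recipProd` -/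
def TaskRat : Prop := Schmidt → TaskExact → Rat

end

end Pool.Agent.H387R3.ZT
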