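import Pool.Agent.H387R3.ZT.Asm
import Pool.Agent.H124R3.TaskFU
import Pool.Agent.H427R3.ZT.TaskA
import Pool.Agent.H427R3.ZT.TaskB
import Pool.Agent.H714R3.ZT.TaskC2
import Pool.Agent.H142R3.ZTLow
import Pool.Agent.H675R3.ZT.Sch
import Pool.Agent.H455R3.ZT.Exact
import Pool.Agent.H387R3.ZT.Stmts2

/-! Project ZT: assembly, second part. -/

set_option autoImplicit false

namespace Pool.Agent.H387R3.ZT

/-- Weil's theorem for the characters of a tower. -/
theorem weil : Weil := by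
  have hC : TaskC := H309R3.Rec.taskC3 H510R3.ZT.taskC0 H996R3.ZTC1.taskC1 H714R3.ZT.taskC2
  have hRec : Rec := taskD H427R3.ZT.taskB H427R3.ZT.taskA hC H133R3.ZT.taskWA H22R3.ZT.taskSupp
  exact H962R3.WeilL.taskWeil hRec H525R3.ZT.taskE H22R3.ZT.taskDeg0 H124R3.ZT.taskFrob
    H124R3.ZT.taskUnr

theorem final_of (hF : TaskF) (hG : TaskG) : Final := H412R3.ZT.taskEnd weil hF hG

theorem rat_of (hU : TaskUp) (hC : TaskConst) (hR : TaskRat) : Rat :=
  hR (H675R3.ZT.taskSch hU H142R3.ZTLow.taskLow hC) H455R3.ZT.taskExact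

end Pool.Agent.H387R3.ZT
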