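import Pool.Agent.H387R3.ZT.End2
import Pool.Agent.H387R3.ZT.Asm2
import Pool.Agent.H278R3.ZT.F
import Pool.Agent.H962R3.FAbs
import Pool.Agent.H124R3.TaskFU
import Pool.Agent.H623R3.ZT.G
import Pool.Agent.H107R3.ZT.Up
import Pool.Agent.H123R3.ZT.Const

/-! Project ZT, assembly. -/

set_option autoImplicit false

namespace Pool.Agent.H387R3.ZT

theorem taskF2 : H278R3.ZT.TaskF2 :=
  H278R3.ZT.taskF2_of
    (fun p _ q N hq hN _ _ _ d₀ d₁ h0 h1 f0 f1 hp0 hp1 f hf hc =>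
      H962R3.FAbs.fabs_pow (p := p) q N hq hN d₀ d₁ h0 h1 f0 f1 hp0 hp1 f hf hc)
    (fun p _ q m hq hm _ _ d₁ h1 f1 hp1 hdiv =>
      H962R3.FAbs.fabs_div (p := p) q m hq hm d₁ h1 f1 hp1 hdiv)
    H124R3.ZT.taskFrob H124R3.ZT.taskUnr

theorem final : Final := taskEnd2 weil taskF2 H623R3.ZT.taskG

theorem rat_of' (hR : TaskRat) : Rat := rat_of H107R3.ZT.taskUp H123R3.ZT.taskConst hR

end Pool.Agent.H387R3.ZT
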