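import Pool.Agent.H387R3.ZT.Asm3
import Pool.Agent.H387R3.ZT.RatP

/-! Project ZT, the two final theorems. -/

set_option autoImplicit false

namespace Pool.Agent.H387R3.ZT

theorem final' : Final := final

theorem rat : Rat := rat_of' taskRat

end Pool.Agent.H387R3.ZT
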